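import Mathlib
import Pool.Agent.TH497.PW.IntFlow
import Pool.Agent.TH362.FP.Pos
import Pool.Agent.Y335.FL.Main
import Pool.Agent.Y335.FL.Order
import Pool.Agent.Helper335.Rel.Main
import Pool.Agent.V11186.FV.Multi

set_option autoImplicit false

/-!
# Dominating sets with at most 31, 50, 62 vertices (MP_974d84_co)

Let `(k, j)` be `(31, 1)`, `(50, 2)` or `(62, 3)`, that is, `k (j + 3) < 126 j`.  Let `G` be a
bridgeless multigraph with a set `S` of at most `k` vertices such that every vertex of degree at
least three outside `S` is joined to `S` by at least `j` edges.  Then `G` has a nowhere-zero 5-flow,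
and the characteristic polynomial of its bond matroid is positive at all integers `q ≥ 5`.
In particular this holds for all bridgeless graphs with domination number at most 31 and for all
bridgeless graphs with vertex cover number at most 62 (for Tutte's 12-cage this number is 63).
The degrees, the order, the connectivity, the genus and the treewidth are arbitrary.

The relative form: the condition is only required for `G / F`, where `F` is the union of cycles
`C_1, ..., C_m`, each with at most eleven edges outside the union of the earlier ones.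

Proof.  The class is closed under contractions (not under deletions).  Let `H` be a counterexample
with as few edges as possible; it has girth at least twelve (library `Y335/FL` of helper335), all
degrees are at least three, and it is simple.  By the Moore bound for irregular graphs (Alon, Hoory,
Linial) sets with at most 125 (126) vertices span less than (at most) `3/2` edges per vertex.
`j = 3`: `S` and 63 other vertices span at least `3 * 63` edges.
`j = 2`: there are 76 other vertices which span at least `2 * 76 + 38` edges with `S`: vertices are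
added in pairs, where one has three neighbours in `S` or a neighbour among the earlier ones, or the
two are adjacent.
`j = 1`: `V` is partitioned into `b ≤ 31` stars; two stars are joined by at most one edge and there
is no triangle of stars, so that (Mantel) `H` has at most `(n - b) + b ^ 2 / 4` edges.  On the other
hand the sum of the degrees is at least `4 (n - b)`, as the centres have at least `n - b` leaves.
So `n ≤ 271`, and the average degree `max (3, 4 - 4 b / n)` contradicts the Moore bound.
-/

namespace Pool.Agent.Results.MP_974d84_co.MultipleDomination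

open Pool.Agent.TH497.PW

variable {V E W : Type}

/-- The edges with exactly one end in `X`. -/
def boundary [DecidableEq V] [Fintype E] (src dst : E → V) (X : Finset V) : Finset E :=
  Finset.univ.filter (fun e => ¬ (src e ∈ X ↔ dst e ∈ X))

/-- Kirchhoff's law. -/
def IsFlow [DecidableEq V] [Fintype E] (src dst : E → V) (f : E → ℤ) : Prop :=
  ∀ v : V, ∑ e ∈ Finset.univ.filter (fun e => src e = v), f e
    = ∑ e ∈ Finset.univ.filter (fun e => dst e = v), f e

/-- `C` is a cycle: the support of an integer flow with the values `0`, `1` and `-1`. -/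
def IsCycle [DecidableEq V] [Fintype E] (src dst : E → V) (C : Finset E) : Prop :=
  ∃ z : E → ℤ, IsFlow src dst z ∧ (∀ e, z e = 0 ∨ z e = 1 ∨ z e = -1) ∧ ∀ e, z e ≠ 0 ↔ e ∈ C

/-- The map `r` identifies only vertices which are joined by a path with edges in `F`; for example
`r` is the identity or the map to the components of the graph `(V, F)`. -/
def JoinedIn (src dst : E → V) (F : Finset E) (r : V → W) : Prop :=
  ∀ x y, r x = r y → (SimpleGraph.fromRel
    (fun u v : V => ∃ e ∈ F, src e = u ∧ dst e = v)).Reachable x y

/-- The degree of `v`; loops are not counted. -/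
def properDegree [DecidableEq V] [Fintype E] (src dst : E → V) (v : V) : ℕ :=
  (Finset.univ.filter (fun e => src e ≠ dst e ∧ (src e = v ∨ dst e = v))).card

/-- The edges joining `x` and `S`. -/
def edgesTo [DecidableEq V] [Fintype E] (src dst : E → V) (S : Finset V) (x : V) : Finset E :=
  Finset.univ.filter (fun e => (src e = x ∧ dst e ∈ S) ∨ (dst e = x ∧ src e ∈ S))

/-- The number of the components of the graph with the vertices `V` and the edges `A`. -/
noncomputable def components (src dst : E → V) (A : Finset E) : ℕ :=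
  Nat.card (SimpleGraph.fromRel
    (fun u v : V => ∃ e ∈ A, src e = u ∧ dst e = v)).ConnectedComponent

/-- The rank of `A` in the cycle matroid of the graph. -/
noncomputable def cycleRank [Fintype V] (src dst : E → V) (A : Finset E) : ℕ :=
  Fintype.card V - components src dst A

/-- The rank of `A` in the bond matroid of the graph (the dual of the cycle matroid). -/
noncomputable def bondRank [Fintype V] [Fintype E] [DecidableEq E] (src dst : E → V)
    (A : Finset E) : ℕ :=
  A.card + cycleRank src dst Aᶜ - cycleRank src dst Finset.univ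

/-- The characteristic polynomial of the bond matroid at the integer `x`. -/
noncomputable def bondCharPoly [Fintype V] [Fintype E] [DecidableEq E] (src dst : E → V)
    (x : ℤ) : ℤ :=
  ∑ A : Finset E, (-1) ^ A.card * x ^ (bondRank src dst Finset.univ - bondRank src dst A)

theorem isFlow_iff [DecidableEq V] [Fintype E] (src dst : E → V) (f : E → ℤ) :
    IsFlow src dst f ↔
      ∀ v, ∑ e, f e * ((if src e = v then 1 else 0) - (if dst e = v then 1 else 0)) = 0 := by
  unfold IsFlow
  refine forall_congr' fun v => ?_
  rw [Finset.sum_filter, Finset.sum_filter, ← sub_eq_zero, ← Finset.sum_sub_distrib]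
  have : ∀ e, (if src e = v then f e else 0) - (if dst e = v then f e else 0)
      = f e * ((if src e = v then 1 else 0) - (if dst e = v then 1 else 0)) := by
    intro e
    by_cases h1 : src e = v <;> by_cases h2 : dst e = v <;> simp [h1, h2]
  rw [Finset.sum_congr rfl (fun e _ => this e)]

theorem nzf [Fintype V] [DecidableEq V] [Fintype E] [DecidableEq E] (src dst : E → V)
    (h : Pool.Agent.TH676.Z.FlowOn src dst ∅ ∅) : NZF src dst := by
  obtain ⟨f, h1, _, h3⟩ := h
  refine ⟨f, fun e => h3 e (Finset.notMem_empty _) (Finset.notMem_empty _), fun x => ?_⟩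
  rw [← h1 x]
  unfold Pool.Agent.TH676.Z.bd
  refine Finset.sum_congr rfl fun e _ => ?_
  unfold ic
  by_cases h4 : src e = x <;> by_cases h5 : dst e = x <;> simp [h4, h5]

theorem charPoly_pos [Fintype V] [DecidableEq V] [Fintype E] [DecidableEq E] (src dst : E → V)
    (f : E → ℤ) (h1 : IsFlow src dst f) (h2 : ∀ e, 1 ≤ |f e| ∧ |f e| ≤ 4) (q : ℕ) (hq : 5 ≤ q) :
    0 < bondCharPoly src dst q :=
  Pool.Agent.TH362.FP.chr_pos src dst f h2 h1 q hq

/-- the reduction modulo five of a flow with values in `{0, 1, -1}` -/
theorem mod5 [Fintype V] [DecidableEq V] [Fintype E] [DecidableEq E] (src dst : E → V)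
    (C : Finset E) (h : IsCycle src dst C) :
    ∃ z : E → ZMod 5, (∀ v, Pool.Agent.TH676.Z.bd src dst z v = 0) ∧
      (∀ e, z e = 0 ∨ z e = 1 ∨ z e = -1) ∧ ∀ e, z e ≠ 0 ↔ e ∈ C := by
  obtain ⟨z, h1, h2, h3⟩ := h
  refine ⟨fun e => ((z e : ℤ) : ZMod 5), fun v => ?_, fun e => ?_, fun e => ?_⟩
  · have h4 := h1 v
    rw [Finset.sum_filter, Finset.sum_filter, ← sub_eq_zero, ← Finset.sum_sub_distrib] at h4
    have h5 := congrArg (fun t : ℤ => (t : ZMod 5)) h4
    simp only [Int.cast_sum, Int.cast_sub, Int.cast_zero] at h5
    refine Eq.trans ?_ h5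
    unfold Pool.Agent.TH676.Z.bd
    rw [Finset.sum_sub_distrib, Finset.sum_sub_distrib]
    congr 1 <;>
    · refine Finset.sum_congr rfl fun e _ => ?_
      split_ifs <;> simp
  · rcases h2 e with h | h | h <;> simp [h]
  · rw [← h3 e]
    have h10 : (1 : ZMod 5) ≠ 0 := by decide
    rcases h2 e with h | h | h <;> simp [h, h10]

theorem finish [Fintype V] [DecidableEq V] [Fintype E] [DecidableEq E] (src dst : E → V)
    (h : Pool.Agent.TH676.Z.FlowOn src dst ∅ ∅) :
    (∃ f : E → ℤ, IsFlow src dst f ∧ ∀ e, 1 ≤ |f e| ∧ |f e| ≤ 4) ∧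
      ∀ q : ℕ, 5 ≤ q → 0 < bondCharPoly src dst q := by
  obtain ⟨F, hF, hF0⟩ := int_flow src dst (nzf src dst h)
  have hF1 := (isFlow_iff src dst F).mpr hF0
  exact ⟨⟨F, hF1, hF⟩, fun q hq => charPoly_pos src dst F hF1 hF q hq⟩

theorem result :
    ∀ (V E W : Type) [Fintype V] [DecidableEq V] [Fintype E] [DecidableEq E] [Fintype W]
      [DecidableEq W] (src dst : E → V) (m : ℕ) (C : Fin m → Finset E),
      (∀ i, IsCycle src dst (C i)) →
      (∀ i, (C i \ (Finset.univ.filter (fun j => j < i)).biUnion C).card ≤ 11) →
      ∀ r : V → W, JoinedIn src dst (Finset.univ.biUnion C) r →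
      ∀ (k j : ℕ), (k = 31 ∧ j = 1 ∨ k = 50 ∧ j = 2 ∨ k = 62 ∧ j = 3) →
      ∀ S : Finset W, S.card ≤ k →
      (∀ x ∉ S, 3 ≤ properDegree (r ∘ src) (r ∘ dst) x →
        j ≤ (edgesTo (r ∘ src) (r ∘ dst) S x).card) →
      (∀ Y : Finset V, (boundary src dst Y).card ≠ 1) →
      (∃ f : E → ℤ, IsFlow src dst f ∧ ∀ e, 1 ≤ |f e| ∧ |f e| ≤ 4) ∧
      ∀ q : ℕ, 5 ≤ q → 0 < bondCharPoly src dst q := by
  intro V E W _ _ _ _ _ _ src dst m C hC hnew r hr k j hk S hS hx hb
  refine finish src dst (Pool.Agent.Helper335.Rel.relative src dst m C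
    (fun i => mod5 src dst (C i) (hC i)) hnew r hr ?_)
  refine Pool.Agent.V11186.FV.flow_of_ClM Pool.Agent.Y335.FL.contract_all
    Pool.Agent.Y335.FL.ahl Pool.Agent.Y335.FL.moore k j (by omega) _ _ ⟨S, hS, hx⟩
    (fun Y _ => by
      rw [Finset.sdiff_empty]
      exact Pool.Agent.Helper335.Rel.br_quot src dst r hb Y)

/-- The case without cycles and `j = 1`: domination number at most 31. -/
theorem domination (V E : Type) [Fintype V] [DecidableEq V] [Fintype E] [DecidableEq E]
    (src dst : E → V) (S : Finset V) (hS : S.card ≤ 31)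
    (hx : ∀ x ∉ S, ∃ e, (src e = x ∧ dst e ∈ S) ∨ (dst e = x ∧ src e ∈ S))
    (hb : ∀ Y : Finset V, (boundary src dst Y).card ≠ 1) :
    ∃ f : E → ℤ, IsFlow src dst f ∧ ∀ e, 1 ≤ |f e| ∧ |f e| ≤ 4 := by
  refine (result V E V src dst 0 (fun i => i.elim0) (fun i => i.elim0) (fun i => i.elim0) id
    (fun x y h => ?_) 31 1 (by omega) S hS (fun x hxS _ => ?_) hb).1
  · rw [show x = y from h]
  · obtain ⟨e, he⟩ := hx x hxS
    exact Finset.card_pos.2 ⟨e, Finset.mem_filter.2 ⟨Finset.mem_univ _, he⟩⟩

/-- The case without cycles and `j = 3`: vertex cover number at most 62. -/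
theorem vertex_cover (V E : Type) [Fintype V] [DecidableEq V] [Fintype E] [DecidableEq E]
    (src dst : E → V) (S : Finset V) (hS : S.card ≤ 62)
    (hx : ∀ e, src e ≠ dst e → src e ∈ S ∨ dst e ∈ S)
    (hb : ∀ Y : Finset V, (boundary src dst Y).card ≠ 1) :
    ∃ f : E → ℤ, IsFlow src dst f ∧ ∀ e, 1 ≤ |f e| ∧ |f e| ≤ 4 := by
  refine (result V E V src dst 0 (fun i => i.elim0) (fun i => i.elim0) (fun i => i.elim0) id
    (fun x y h => ?_) 62 3 (by omega) S hS (fun x hxS h3 => ?_) hb).1
  · rw [show x = y from h]
  · refine h3.trans (Finset.card_le_card fun e he => ?_)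
    obtain ⟨-, h1, h2⟩ := Finset.mem_filter.1 he
    refine Finset.mem_filter.2 ⟨Finset.mem_univ _, ?_⟩
    simp only [Function.comp_apply, id] at h1 h2 ⊢
    rcases h2 with h2 | h2
    · exact Or.inl ⟨h2, (hx e h1).resolve_left (fun h => hxS (h2 ▸ h))⟩
    · exact Or.inr ⟨h2, (hx e h1).resolve_right (fun h => hxS (h2 ▸ h))⟩

end Pool.Agent.Results.MP_974d84_co.MultipleDomination
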