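import Mathlib
import Pool.Agent.TH497.PW.IntFlow
import Pool.Agent.TH362.FP.Pos
import Pool.Agent.Y335.FL.Main
import Pool.Agent.Y335.FL.Order
import Pool.Agent.Helper335.Rel.Main
import Pool.Agent.V11186.FV.TreeMin

set_option autoImplicit false

/-!
# Graphs without a large cubic tree as a minor (MP_974d84_co)

Let `T` be the tree with `126` vertices consisting of all vertices at distance at most five from an
edge of the infinite cubic tree (`62` vertices of degree three and `64` leaves).  Every bridgeless
multigraph `G` without a minor isomorphic to `T` has a nowhere-zero 5-flow, and the characteristic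
polynomial of its bond matroid is positive at all integers `q ≥ 5`.  As `T` has maximum degree
three, it is the same to say that no subgraph of `G` is a subdivision of `T`.  The number of the
vertices, the degrees and the connectivity are arbitrary.  Examples are the graphs with at most
`125` vertices, the graphs in which every tree has at most `63` leaves, and the graphs without a
minor `K_{1,64}`.

The relative form: the condition is only required for `G / F`, where `F` is the union of cycles
`C_1, ..., C_m`, each with at most eleven edges outside the union of the earlier ones.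

The vertices of `T` are the numbers `2, ..., 127`; the number `n` is joined to its parent, which is
`n / 2` for `n ≥ 4` and `2` for `n = 3`.

Proof.  The class is closed under contractions.  Let `H` be a counterexample with as few edges as
possible; it has girth at least twelve (library `Y335/FL` of helper335: circuits with at most eleven
edges are contractible) and all degrees are at least three.  So `T` has a locally injective map to
`H`.  It is injective: nonbacktracking walks with at most eleven edges are paths.
-/

namespace Pool.Agent.Results.MP_974d84_co.NoTreeMinor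

open Pool.Agent.TH497.PW

variable {V E W : Type}

/-- The edges with exactly one end in `X`. -/
def boundary [DecidableEq V] [Fintype E] (src dst : E → V) (X : Finset V) : Finset E :=
  Finset.univ.filter (fun e => ¬ (src e ∈ X ↔ dst e ∈ X))

/-- Kirchhoff's law. -/
def IsFlow [DecidableEq V] [Fintype E] (src dst : E → V) (f : E → ℤ) : Prop :=
  ∀ v : V, ∑ e ∈ Finset.univ.filter (fun e => src e = v), f e
    = ∑ e ∈ Finset.univ.filter (fun e => dst e = v), f e

/-- `C` is a cycle: the support of an integer flow with the values `0`, `1` and `-1`. -/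
def IsCycle [DecidableEq V] [Fintype E] (src dst : E → V) (C : Finset E) : Prop :=
  ∃ z : E → ℤ, IsFlow src dst z ∧ (∀ e, z e = 0 ∨ z e = 1 ∨ z e = -1) ∧ ∀ e, z e ≠ 0 ↔ e ∈ C

/-- The map `r` identifies only vertices which are joined by a path with edges in `F`; for example
`r` is the identity or the map to the components of the graph `(V, F)`. -/
def JoinedIn (src dst : E → V) (F : Finset E) (r : V → W) : Prop :=
  ∀ x y, r x = r y → (SimpleGraph.fromRel
    (fun u v : V => ∃ e ∈ F, src e = u ∧ dst e = v)).Reachable x y

/-- The parent of `n` in the tree with the vertices `2, ..., 127`. -/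
def parent (n : ℕ) : ℕ := if n = 3 then 2 else n / 2

/-- The tree with the vertices `2, ..., 127` is a minor of the graph: `φ` gives the branch set
`{x | φ x = n}` of each vertex `n` of the tree; the branch sets are nonempty and connected, and
there is an edge between the branch sets of `n` and of its parent. -/
def HasTreeMinor (src dst : E → V) : Prop := ∃ φ : V → ℕ,
  (∀ n, 2 ≤ n → n ≤ 127 → ∃ x, φ x = n) ∧
  (∀ n, 2 ≤ n → n ≤ 127 → ∀ x y, φ x = n → φ y = n → Relation.ReflTransGen
    (fun a b : V => φ a = n ∧ φ b = n ∧
      ∃ e, (src e = a ∧ dst e = b) ∨ (src e = b ∧ dst e = a)) x y) ∧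
  ∀ n, 3 ≤ n → n ≤ 127 → ∃ (e : E) (a b : V),
    ((src e = a ∧ dst e = b) ∨ (src e = b ∧ dst e = a)) ∧ φ a = n ∧ φ b = parent n

/-- The number of the components of the graph with the vertices `V` and the edges `A`. -/
noncomputable def components (src dst : E → V) (A : Finset E) : ℕ :=
  Nat.card (SimpleGraph.fromRel
    (fun u v : V => ∃ e ∈ A, src e = u ∧ dst e = v)).ConnectedComponent

/-- The rank of `A` in the cycle matroid of the graph. -/
noncomputable def cycleRank [Fintype V] (src dst : E → V) (A : Finset E) : ℕ :=
  Fintype.card V - components src dst A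

/-- The rank of `A` in the bond matroid of the graph (the dual of the cycle matroid). -/
noncomputable def bondRank [Fintype V] [Fintype E] [DecidableEq E] (src dst : E → V)
    (A : Finset E) : ℕ :=
  A.card + cycleRank src dst Aᶜ - cycleRank src dst Finset.univ

/-- The characteristic polynomial of the bond matroid at the integer `x`. -/
noncomputable def bondCharPoly [Fintype V] [Fintype E] [DecidableEq E] (src dst : E → V)
    (x : ℤ) : ℤ :=
  ∑ A : Finset E, (-1) ^ A.card * x ^ (bondRank src dst Finset.univ - bondRank src dst A)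

theorem isFlow_iff [DecidableEq V] [Fintype E] (src dst : E → V) (f : E → ℤ) :
    IsFlow src dst f ↔
      ∀ v, ∑ e, f e * ((if src e = v then 1 else 0) - (if dst e = v then 1 else 0)) = 0 := by
  unfold IsFlow
  refine forall_congr' fun v => ?_
  rw [Finset.sum_filter, Finset.sum_filter, ← sub_eq_zero, ← Finset.sum_sub_distrib]
  have : ∀ e, (if src e = v then f e else 0) - (if dst e = v then f e else 0)
      = f e * ((if src e = v then 1 else 0) - (if dst e = v then 1 else 0)) := by
    intro e
    by_cases h1 : src e = v <;> by_cases h2 : dst e = v <;> simp [h1, h2]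
  rw [Finset.sum_congr rfl (fun e _ => this e)]

theorem nzf [Fintype V] [DecidableEq V] [Fintype E] [DecidableEq E] (src dst : E → V)
    (h : Pool.Agent.TH676.Z.FlowOn src dst ∅ ∅) : NZF src dst := by
  obtain ⟨f, h1, _, h3⟩ := h
  refine ⟨f, fun e => h3 e (Finset.notMem_empty _) (Finset.notMem_empty _), fun x => ?_⟩
  rw [← h1 x]
  unfold Pool.Agent.TH676.Z.bd
  refine Finset.sum_congr rfl fun e _ => ?_
  unfold ic
  by_cases h4 : src e = x <;> by_cases h5 : dst e = x <;> simp [h4, h5]

theorem charPoly_pos [Fintype V] [DecidableEq V] [Fintype E] [DecidableEq E] (src dst : E → V)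
    (f : E → ℤ) (h1 : IsFlow src dst f) (h2 : ∀ e, 1 ≤ |f e| ∧ |f e| ≤ 4) (q : ℕ) (hq : 5 ≤ q) :
    0 < bondCharPoly src dst q :=
  Pool.Agent.TH362.FP.chr_pos src dst f h2 h1 q hq

/-- the reduction modulo five of a flow with values in `{0, 1, -1}` -/
theorem mod5 [Fintype V] [DecidableEq V] [Fintype E] [DecidableEq E] (src dst : E → V)
    (C : Finset E) (h : IsCycle src dst C) :
    ∃ z : E → ZMod 5, (∀ v, Pool.Agent.TH676.Z.bd src dst z v = 0) ∧
      (∀ e, z e = 0 ∨ z e = 1 ∨ z e = -1) ∧ ∀ e, z e ≠ 0 ↔ e ∈ C := by
  obtain ⟨z, h1, h2, h3⟩ := h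
  refine ⟨fun e => ((z e : ℤ) : ZMod 5), fun v => ?_, fun e => ?_, fun e => ?_⟩
  · have h4 := h1 v
    rw [Finset.sum_filter, Finset.sum_filter, ← sub_eq_zero, ← Finset.sum_sub_distrib] at h4
    have h5 := congrArg (fun t : ℤ => (t : ZMod 5)) h4
    simp only [Int.cast_sum, Int.cast_sub, Int.cast_zero] at h5
    refine Eq.trans ?_ h5
    unfold Pool.Agent.TH676.Z.bd
    rw [Finset.sum_sub_distrib, Finset.sum_sub_distrib]
    congr 1 <;>
    · refine Finset.sum_congr rfl fun e _ => ?_
      split_ifs <;> simp
  · rcases h2 e with h | h | h <;> simp [h]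
  · rw [← h3 e]
    have h10 : (1 : ZMod 5) ≠ 0 := by decide
    rcases h2 e with h | h | h <;> simp [h, h10]

theorem finish [Fintype V] [DecidableEq V] [Fintype E] [DecidableEq E] (src dst : E → V)
    (h : Pool.Agent.TH676.Z.FlowOn src dst ∅ ∅) :
    (∃ f : E → ℤ, IsFlow src dst f ∧ ∀ e, 1 ≤ |f e| ∧ |f e| ≤ 4) ∧
      ∀ q : ℕ, 5 ≤ q → 0 < bondCharPoly src dst q := by
  obtain ⟨F, hF, hF0⟩ := int_flow src dst (nzf src dst h)
  have hF1 := (isFlow_iff src dst F).mpr hF0
  exact ⟨⟨F, hF1, hF⟩, fun q hq => charPoly_pos src dst F hF1 hF q hq⟩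

theorem result :
    ∀ (V E W : Type) [Fintype V] [DecidableEq V] [Fintype E] [DecidableEq E] [Fintype W]
      [DecidableEq W] (src dst : E → V) (m : ℕ) (C : Fin m → Finset E),
      (∀ i, IsCycle src dst (C i)) →
      (∀ i, (C i \ (Finset.univ.filter (fun j => j < i)).biUnion C).card ≤ 11) →
      ∀ ρ : V → W, JoinedIn src dst (Finset.univ.biUnion C) ρ →
      ¬ HasTreeMinor (ρ ∘ src) (ρ ∘ dst) →
      (∀ Y : Finset V, (boundary src dst Y).card ≠ 1) →
      (∃ f : E → ℤ, IsFlow src dst f ∧ ∀ e, 1 ≤ |f e| ∧ |f e| ≤ 4) ∧
      ∀ q : ℕ, 5 ≤ q → 0 < bondCharPoly src dst q := by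
  intro V E W _ _ _ _ _ _ src dst m C hC hnew ρ hρ hT hb
  refine finish src dst (Pool.Agent.Helper335.Rel.relative src dst m C
    (fun i => mod5 src dst (C i) (hC i)) hnew ρ hρ ?_)
  exact Pool.Agent.V11186.FV.flow_of_TM Pool.Agent.Y335.FL.contract_all _ _ hT
    (fun Y _ => by
      rw [Finset.sdiff_empty]
      exact Pool.Agent.Helper335.Rel.br_quot src dst ρ hb Y)

/-- The case without cycles. -/
theorem tree_minor (V E : Type) [Fintype V] [DecidableEq V] [Fintype E] [DecidableEq E]
    (src dst : E → V) (h : ¬ HasTreeMinor src dst)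
    (hb : ∀ Y : Finset V, (boundary src dst Y).card ≠ 1) :
    ∃ f : E → ℤ, IsFlow src dst f ∧ ∀ e, 1 ≤ |f e| ∧ |f e| ≤ 4 := by
  refine (result V E V src dst 0 (fun i => i.elim0) (fun i => i.elim0) (fun i => i.elim0) id
    (fun x y h => ?_) h hb).1
  rw [show x = y from h]

end Pool.Agent.Results.MP_974d84_co.NoTreeMinor
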