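import Mathlib
import Pool.Agent.TH497.PW.IntFlow
import Pool.Agent.TH362.FP.Pos
import Pool.Agent.Y335.FL.Main
import Pool.Agent.Y335.FL.Order
import Pool.Agent.Helper335.Rel.Main
import Pool.Agent.V11186.FV.Split

set_option autoImplicit false

/-!
# Few vertices of odd degree, and few odd components of short cycles (MP_974d84_co)

Let `G` be a bridgeless multigraph with at most 125 vertices of odd degree; the number and the
degrees of the vertices of even degree are arbitrary.  Then `G` has a nowhere-zero 5-flow, and the
characteristic polynomial of its bond matroid is positive at all integers `q ≥ 5`.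

More generally let `C_1, ..., C_m` be cycles, each with at most eleven edges outside the union of
the earlier ones, and let `F` be their union.  It is enough that at most 125 components of the graph
`(V, F)` have an odd number of boundary edges.  For example a bridgeless cubic graph (of any order)
has a nowhere-zero 5-flow if it has pairwise disjoint circuits, all of length at most eleven, such
that the number of the uncovered vertices plus the number of the circuits of odd length is at
most 125.

Proof.  (1) Splitting (Fleischner's lemma for bridges): let `v` be a vertex of degree at least four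
in a bridgeless graph.  There are edges `e = v a` and `f = v b` such that the graph in which they
are replaced by one edge `a b` is bridgeless.  Otherwise, for a fixed edge `e_1` at `v`, all pairs
`e_1`, `e_j` are separated from `v` by cuts with three edges.  If one of these cuts with `e_1`
consists of edges at `v`, then a pair with an edge outside it cannot be separated; otherwise two of
these sets are uncrossed (submodularity, posimodularity and the parity of
`|δ(Y)| + |δ(Y ∩ Z)| + |δ(Y \ Z)|`) and their union is bounded by three edges at `v`.
(2) Splitting keeps the parities of the degrees and flows can be lifted back, so one may assume that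
all degrees are at most three; then there are at most 125 vertices of degree three and the theorem
on the order of a counterexample applies (library `Y335/FL` of helper335: circuits with at most
eleven edges are contractible, and a graph of girth twelve with degrees at least three has at least
126 vertices).
(3) The relative form follows by lifting flows of `G / F` (library `Helper335/Rel`).
-/

namespace Pool.Agent.Results.MP_974d84_co.OddComponents

open Pool.Agent.TH497.PW

variable {V E W : Type}

/-- The edges with exactly one end in `X`. -/
def boundary [DecidableEq V] [Fintype E] (src dst : E → V) (X : Finset V) : Finset E :=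
  Finset.univ.filter (fun e => ¬ (src e ∈ X ↔ dst e ∈ X))

/-- Kirchhoff's law. -/
def IsFlow [DecidableEq V] [Fintype E] (src dst : E → V) (f : E → ℤ) : Prop :=
  ∀ v : V, ∑ e ∈ Finset.univ.filter (fun e => src e = v), f e
    = ∑ e ∈ Finset.univ.filter (fun e => dst e = v), f e

/-- `C` is a cycle: the support of an integer flow with the values `0`, `1` and `-1`. -/
def IsCycle [DecidableEq V] [Fintype E] (src dst : E → V) (C : Finset E) : Prop :=
  ∃ z : E → ℤ, IsFlow src dst z ∧ (∀ e, z e = 0 ∨ z e = 1 ∨ z e = -1) ∧ ∀ e, z e ≠ 0 ↔ e ∈ C

/-- The map `r` identifies only vertices which are joined by a path with edges in `F`; for example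
`r` is the identity or the map to the components of the graph `(V, F)`. -/
def JoinedIn (src dst : E → V) (F : Finset E) (r : V → W) : Prop :=
  ∀ x y, r x = r y → (SimpleGraph.fromRel
    (fun u v : V => ∃ e ∈ F, src e = u ∧ dst e = v)).Reachable x y

/-- The number of the classes `r x = w` with an odd number of boundary edges. -/
def oddClasses [Fintype V] [DecidableEq V] [Fintype E] [Fintype W] [DecidableEq W]
    (src dst : E → V) (r : V → W) : ℕ :=
  (Finset.univ.filter (fun w : W =>
    Odd (boundary src dst (Finset.univ.filter (fun x => r x = w))).card)).card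

/-- The number of the components of the graph with the vertices `V` and the edges `A`. -/
noncomputable def components (src dst : E → V) (A : Finset E) : ℕ :=
  Nat.card (SimpleGraph.fromRel
    (fun u v : V => ∃ e ∈ A, src e = u ∧ dst e = v)).ConnectedComponent

/-- The rank of `A` in the cycle matroid of the graph. -/
noncomputable def cycleRank [Fintype V] (src dst : E → V) (A : Finset E) : ℕ :=
  Fintype.card V - components src dst A

/-- The rank of `A` in the bond matroid of the graph (the dual of the cycle matroid). -/
noncomputable def bondRank [Fintype V] [Fintype E] [DecidableEq E] (src dst : E → V)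
    (A : Finset E) : ℕ :=
  A.card + cycleRank src dst Aᶜ - cycleRank src dst Finset.univ

/-- The characteristic polynomial of the bond matroid at the integer `x`. -/
noncomputable def bondCharPoly [Fintype V] [Fintype E] [DecidableEq E] (src dst : E → V)
    (x : ℤ) : ℤ :=
  ∑ A : Finset E, (-1) ^ A.card * x ^ (bondRank src dst Finset.univ - bondRank src dst A)

theorem isFlow_iff [DecidableEq V] [Fintype E] (src dst : E → V) (f : E → ℤ) :
    IsFlow src dst f ↔
      ∀ v, ∑ e, f e * ((if src e = v then 1 else 0) - (if dst e = v then 1 else 0)) = 0 := by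
  unfold IsFlow
  refine forall_congr' fun v => ?_
  rw [Finset.sum_filter, Finset.sum_filter, ← sub_eq_zero, ← Finset.sum_sub_distrib]
  have : ∀ e, (if src e = v then f e else 0) - (if dst e = v then f e else 0)
      = f e * ((if src e = v then 1 else 0) - (if dst e = v then 1 else 0)) := by
    intro e
    by_cases h1 : src e = v <;> by_cases h2 : dst e = v <;> simp [h1, h2]
  rw [Finset.sum_congr rfl (fun e _ => this e)]

theorem nzf [Fintype V] [DecidableEq V] [Fintype E] [DecidableEq E] (src dst : E → V)
    (h : Pool.Agent.TH676.Z.FlowOn src dst ∅ ∅) : NZF src dst := by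
  obtain ⟨f, h1, _, h3⟩ := h
  refine ⟨f, fun e => h3 e (Finset.notMem_empty _) (Finset.notMem_empty _), fun x => ?_⟩
  rw [← h1 x]
  unfold Pool.Agent.TH676.Z.bd
  refine Finset.sum_congr rfl fun e _ => ?_
  unfold ic
  by_cases h4 : src e = x <;> by_cases h5 : dst e = x <;> simp [h4, h5]

theorem charPoly_pos [Fintype V] [DecidableEq V] [Fintype E] [DecidableEq E] (src dst : E → V)
    (f : E → ℤ) (h1 : IsFlow src dst f) (h2 : ∀ e, 1 ≤ |f e| ∧ |f e| ≤ 4) (q : ℕ) (hq : 5 ≤ q) :
    0 < bondCharPoly src dst q :=
  Pool.Agent.TH362.FP.chr_pos src dst f h2 h1 q hq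

/-- the reduction modulo five of a flow with values in `{0, 1, -1}` -/
theorem mod5 [Fintype V] [DecidableEq V] [Fintype E] [DecidableEq E] (src dst : E → V)
    (C : Finset E) (h : IsCycle src dst C) :
    ∃ z : E → ZMod 5, (∀ v, Pool.Agent.TH676.Z.bd src dst z v = 0) ∧
      (∀ e, z e = 0 ∨ z e = 1 ∨ z e = -1) ∧ ∀ e, z e ≠ 0 ↔ e ∈ C := by
  obtain ⟨z, h1, h2, h3⟩ := h
  refine ⟨fun e => ((z e : ℤ) : ZMod 5), fun v => ?_, fun e => ?_, fun e => ?_⟩
  · have h4 := h1 v
    rw [Finset.sum_filter, Finset.sum_filter, ← sub_eq_zero, ← Finset.sum_sub_distrib] at h4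
    have h5 := congrArg (fun t : ℤ => (t : ZMod 5)) h4
    simp only [Int.cast_sum, Int.cast_sub, Int.cast_zero] at h5
    refine Eq.trans ?_ h5
    unfold Pool.Agent.TH676.Z.bd
    rw [Finset.sum_sub_distrib, Finset.sum_sub_distrib]
    congr 1 <;>
    · refine Finset.sum_congr rfl fun e _ => ?_
      split_ifs <;> simp
  · rcases h2 e with h | h | h <;> simp [h]
  · rw [← h3 e]
    have h10 : (1 : ZMod 5) ≠ 0 := by decide
    rcases h2 e with h | h | h <;> simp [h, h10]

theorem finish [Fintype V] [DecidableEq V] [Fintype E] [DecidableEq E] (src dst : E → V)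
    (h : Pool.Agent.TH676.Z.FlowOn src dst ∅ ∅) :
    (∃ f : E → ℤ, IsFlow src dst f ∧ ∀ e, 1 ≤ |f e| ∧ |f e| ≤ 4) ∧
      ∀ q : ℕ, 5 ≤ q → 0 < bondCharPoly src dst q := by
  obtain ⟨F, hF, hF0⟩ := int_flow src dst (nzf src dst h)
  have hF1 := (isFlow_iff src dst F).mpr hF0
  exact ⟨⟨F, hF1, hF⟩, fun q hq => charPoly_pos src dst F hF1 hF q hq⟩

theorem result :
    ∀ (V E W : Type) [Fintype V] [DecidableEq V] [Fintype E] [DecidableEq E] [Fintype W]
      [DecidableEq W] (src dst : E → V) (m : ℕ) (C : Fin m → Finset E),
      (∀ i, IsCycle src dst (C i)) →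
      (∀ i, (C i \ (Finset.univ.filter (fun j => j < i)).biUnion C).card ≤ 11) →
      ∀ r : V → W, JoinedIn src dst (Finset.univ.biUnion C) r →
      oddClasses src dst r ≤ 125 →
      (∀ Y : Finset V, (boundary src dst Y).card ≠ 1) →
      (∃ f : E → ℤ, IsFlow src dst f ∧ ∀ e, 1 ≤ |f e| ∧ |f e| ≤ 4) ∧
      ∀ q : ℕ, 5 ≤ q → 0 < bondCharPoly src dst q := by
  intro V E W _ _ _ _ _ _ src dst m C hC hnew r hr hodd hb
  refine finish src dst (Pool.Agent.Helper335.Rel.relative src dst m C
    (fun i => mod5 src dst (C i) (hC i)) hnew r hr ?_)
  refine Pool.Agent.V11186.FV.flow_odd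
    (Pool.Agent.Y335.FL.order Pool.Agent.Y335.FL.girth_all Pool.Agent.Y335.FL.moore) _ _ _ rfl ?_
    (fun Y _ => by
      rw [Finset.sdiff_empty]
      exact Pool.Agent.Helper335.Rel.br_quot src dst r hb Y)
  refine le_trans (le_of_eq ?_) hodd
  unfold oddClasses
  congr 1
  refine Finset.filter_congr fun w _ => ?_
  rw [Pool.Agent.V11186.FV.dg_crs]
  unfold Pool.Agent.TH676.Z.crs boundary
  simp

/-- The case without cycles: at most 125 vertices of odd degree. -/
theorem odd_vertices (V E : Type) [Fintype V] [DecidableEq V] [Fintype E] [DecidableEq E]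
    (src dst : E → V)
    (hodd : (Finset.univ.filter (fun x : V => Odd (boundary src dst {x}).card)).card ≤ 125)
    (hb : ∀ Y : Finset V, (boundary src dst Y).card ≠ 1) :
    ∃ f : E → ℤ, IsFlow src dst f ∧ ∀ e, 1 ≤ |f e| ∧ |f e| ≤ 4 := by
  refine (result V E V src dst 0 (fun i => i.elim0) (fun i => i.elim0) (fun i => i.elim0) id
    (fun x y h => ?_) (le_trans (le_of_eq ?_) hodd) hb).1
  · rw [show x = y from h]
  · unfold oddClasses
    congr 1
    refine Finset.filter_congr fun w _ => ?_
    have : (Finset.univ.filter (fun x : V => id x = w)) = {w} := by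
      ext x
      simp
    rw [this]

end Pool.Agent.Results.MP_974d84_co.OddComponents
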