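import Pool.Agent.H170.Reg.Good
import Pool.Agent.TH362.FP.Pos

/-!
# Multigraphs of strength at least `k / (k - 2)` are `Z_k`-connected (MP_974d84_co)

Q1 is equivalent to Tutte's 5-flow conjecture: for the bond matroid `M` of a graph `G` the value `χ_M(i)` is the number
of the nowhere-zero `Z_i`-flows of `G`.

Let `k ≥ 3`, let `G` be a multigraph and let `C_1, ..., C_m` be cycles of `G` (supports of flows with values in
`{0, 1, -1}`), each with at most `k - 1` edges outside the union of the earlier ones.  Suppose that every partition of
the vertex set into `c` classes, such that no edge of the cycles joins different classes, has at least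
`(k / (k - 2)) (c - 1)` crossing edges.  Then `G` is `Z_k`-connected: for every prescribed boundary of a `Z_k`-valued
function and every assignment of one forbidden value to each edge there is a function with this boundary which avoids
the forbidden values.  In particular `G` has a nowhere-zero `k`-flow, and the characteristic polynomial of the bond
matroid of `G` is positive at all integers `q ≥ k`.

For `m = 0` the condition says that the strength of `G` (the fractional spanning tree packing number) is at least
`k / (k - 2)`: three disjoint spanning trees for `k = 3`, two for `k = 4`, and `5 / 3` for `k = 5`.  For `k = 5` this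
contains the starting results on sparse and local 3-edge-cuts (MP_c8786f_co, SparseThreeCuts and LocalThreeCuts), whose
hypotheses are used only for this inequality.  The proof is in the starting files `H170/Reg`, based on the covering
theorem of `H239R2/Cover`.
-/

set_option autoImplicit false
set_option linter.unusedSectionVars false

namespace Pool.Agent.Results.MP_974d84_co.StrengthCriterion

open Pool.Agent.H170.Reg

variable {V E : Type}

/-- The boundary of `f` at `v`: the sum of `f` over the edges which leave `v` minus the sum over the edges which enter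
`v`.  The function `f` is a flow if its boundary is zero. -/
def bd {R : Type} [AddCommGroup R] [DecidableEq V] [Fintype E] (src dst : E → V)
    (f : E → R) (v : V) : R :=
  ∑ e ∈ Finset.univ.filter (fun e => src e = v), f e
    - ∑ e ∈ Finset.univ.filter (fun e => dst e = v), f e

/-- The number of the components of the graph with the vertices `V` and the edges `A`. -/
noncomputable def components (src dst : E → V) (A : Finset E) : ℕ :=
  Nat.card (SimpleGraph.fromRel
    (fun u v : V => ∃ e ∈ A, src e = u ∧ dst e = v)).ConnectedComponent

/-- The rank of `A` in the cycle matroid of the graph. -/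
noncomputable def cycleRank [Fintype V] (src dst : E → V) (A : Finset E) : ℕ :=
  Fintype.card V - components src dst A

/-- The rank of `A` in the bond matroid of the graph (the dual of the cycle matroid). -/
noncomputable def bondRank [Fintype V] [Fintype E] [DecidableEq E] (src dst : E → V)
    (A : Finset E) : ℕ :=
  A.card + cycleRank src dst Aᶜ - cycleRank src dst Finset.univ

/-- The characteristic polynomial of the bond matroid at the integer `x`. -/
noncomputable def bondCharPoly [Fintype V] [Fintype E] [DecidableEq E] (src dst : E → V)
    (x : ℤ) : ℤ :=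
  ∑ A : Finset E, (-1) ^ A.card * x ^ (bondRank src dst Finset.univ - bondRank src dst A)

theorem bd_eq {R : Type} [CommRing R] [DecidableEq V] [Fintype E] (src dst : E → V)
    (f : E → R) (v : V) : bd src dst f v =
      ∑ e, f e * ((if src e = v then 1 else 0) - (if dst e = v then 1 else 0)) := by
  unfold bd
  rw [Finset.sum_filter, Finset.sum_filter, ← Finset.sum_sub_distrib]
  refine Finset.sum_congr rfl fun e _ => ?_
  by_cases h1 : src e = v <;> by_cases h2 : dst e = v <;> simp [h1, h2]

theorem charPoly_pos [Fintype V] [DecidableEq V] [Fintype E] [DecidableEq E] (src dst : E → V)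
    {k : ℕ} (hk : 3 ≤ k) (f : E → ℤ) (hf : ∀ e, 1 ≤ |f e| ∧ |f e| ≤ (k : ℤ) - 1)
    (h : ∀ v, bd src dst f v = 0) (q : ℕ) (hq : k ≤ q) : 0 < bondCharPoly src dst q := by
  have hq0 : NeZero q := ⟨by omega⟩
  have e0 : bondCharPoly src dst q = Pool.Agent.TH362.FP.chr src dst q := rfl
  rw [e0, Pool.Agent.TH362.FP.chr_eq src dst q]
  have hne : Nonempty {φ : E → ZMod q // (∀ e, φ e ≠ 0) ∧
      ∀ v, ∑ e ∈ Finset.univ.filter (fun e => src e = v), φ e =
        ∑ e ∈ Finset.univ.filter (fun e => dst e = v), φ e} := by
    refine ⟨⟨fun e => (f e : ZMod q), fun e he => ?_, fun v => ?_⟩⟩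
    · rw [ZMod.intCast_zmod_eq_zero_iff_dvd] at he
      obtain ⟨h1, h2⟩ := hf e
      have h3 : (q : ℤ) ∣ |f e| := (dvd_abs _ _).2 he
      have h4 := Int.le_of_dvd (by omega) h3
      omega
    · have h1 := congrArg (Int.cast : ℤ → ZMod q) (sub_eq_zero.1 (h v))
      rw [Int.cast_sum, Int.cast_sum] at h1
      exact h1
  have h1 := Nat.card_pos (α := {φ : E → ZMod q // (∀ e, φ e ≠ 0) ∧
    ∀ v, ∑ e ∈ Finset.univ.filter (fun e => src e = v), φ e =
      ∑ e ∈ Finset.univ.filter (fun e => dst e = v), φ e})
  exact_mod_cast h1

/-- **The strength criterion.**  Let `k ≥ 3` and let `C i`, `i < m`, be the supports of flows of the multigraph with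
values in `{0, 1, -1}`, each with at most `k - 1` edges outside the union of the earlier ones.  If every partition `π`
of the vertices into `c` nonempty classes, such that no edge of the `C i` joins different classes, has `x` edges which
join different classes with `k (c - 1) ≤ (k - 2) x`, then
* for all functions `g` (giving the boundary) and `T` (the forbidden values) on the edges with values in `Z_k` there is
  a function `f` with the same boundary as `g` and `f e ≠ T e` for all `e` (the multigraph is `Z_k`-connected);
* the multigraph has a nowhere-zero `k`-flow;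
* the characteristic polynomial of its bond matroid is positive at all integers `q ≥ k`. -/
theorem result :
    ∀ (V E : Type) [Fintype V] [DecidableEq V] [Fintype E] [DecidableEq E] (src dst : E → V)
      (k : ℕ), 3 ≤ k → ∀ (m : ℕ) (C : Fin m → Finset E),
      (∀ i, ∃ z : E → ℤ, (∀ v, bd src dst z v = 0) ∧
        (∀ e, z e = 0 ∨ z e = 1 ∨ z e = -1) ∧ ∀ e, z e ≠ 0 ↔ e ∈ C i) →
      (∀ i, (C i \ (Finset.univ.filter (fun j => j < i)).biUnion C).card ≤ k - 1) →
      (∀ (c : ℕ) (π : V → Fin c), Function.Surjective π →
        (∀ i, ∀ e ∈ C i, π (src e) = π (dst e)) →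
        k * c ≤ (k - 2) * (Finset.univ.filter (fun e => π (src e) ≠ π (dst e))).card + k) →
      (∀ g T : E → ZMod k, ∃ f : E → ZMod k, (∀ v, bd src dst f v = bd src dst g v) ∧
        ∀ e, f e ≠ T e) ∧
      (∃ f : E → ℤ, (∀ v, bd src dst f v = 0) ∧ ∀ e, 1 ≤ |f e| ∧ |f e| ≤ (k : ℤ) - 1) ∧
      ∀ q : ℕ, k ≤ q → 0 < bondCharPoly src dst q := by
  classical
  intro V E _ _ _ _ src dst k hk m C hC hnew hpart
  have hgood : ∀ n : ℕ, n ≤ m →
      Good k src dst ((Finset.univ.filter (fun j : Fin m => j.1 < n)).biUnion C) := by
    intro n
    induction n with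
    | zero =>
      intro _
      have : (Finset.univ.filter (fun j : Fin m => j.1 < 0)) = ∅ := by simp
      rw [this, Finset.biUnion_empty]
      exact good_empty k src dst
    | succ n ih =>
      intro hn
      have h1 := ih (by omega)
      let i : Fin m := ⟨n, by omega⟩
      obtain ⟨z, hb, hz, hzC⟩ := hC i
      have h2 : (Finset.univ.filter (fun j : Fin m => j < i)) =
          (Finset.univ.filter (fun j : Fin m => j.1 < n)) := by
        ext j
        simp only [Finset.mem_filter, Finset.mem_univ, true_and]
        exact Iff.rfl
      have h3' := hnew i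
      rw [h2] at h3'
      have h4 := good_add k (by omega) src dst _ (C i) h1 z hz hzC
        (fun v => by rw [← bd_eq]; exact hb v) h3'
      have h5 : (Finset.univ.filter (fun j : Fin m => j.1 < n + 1)).biUnion C
          = (Finset.univ.filter (fun j : Fin m => j.1 < n)).biUnion C ∪ C i := by
        ext e
        simp only [Finset.mem_biUnion, Finset.mem_filter, Finset.mem_univ, true_and,
          Finset.mem_union]
        constructor
        · rintro ⟨j, hj, he⟩
          rcases Nat.lt_succ_iff_lt_or_eq.mp hj with h | h
          · exact Or.inl ⟨j, h, he⟩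
          · right
            have : j = i := Fin.ext h
            rwa [← this]
        · rintro (⟨j, hj, he⟩ | he)
          · exact ⟨j, by omega, he⟩
          · exact ⟨i, Nat.lt_succ_self n, he⟩
      rw [h5]
      exact h4
  have hall := hgood m le_rfl
  have hm : (Finset.univ.filter (fun j : Fin m => j.1 < m)) = Finset.univ := by
    ext j; simp
  rw [hm] at hall
  have hstr : Good k src dst Finset.univ := good_strength k hk src dst _ hall (by
    intro c π hπ hFπ
    have h1 := hpart c π hπ (fun i e he =>
      hFπ e (Finset.mem_biUnion.2 ⟨i, Finset.mem_univ i, he⟩))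
    convert h1)
  obtain ⟨f, hf, hfb⟩ := flow_of_good k (by omega) src dst hstr
  have hfb' : ∀ v, bd src dst f v = 0 := fun v => by rw [bd_eq]; exact hfb v
  refine ⟨fun g T => ?_, ⟨f, hfb', hf⟩, fun q hq => charPoly_pos src dst hk f hf hfb' q hq⟩
  obtain ⟨f, h1, h2⟩ := hstr T g
  refine ⟨f, fun v => ?_, fun e => h1 e (Finset.mem_univ e)⟩
  have h3 := h2 v
  rw [bd_eq, bd_eq, ← sub_eq_zero, ← Finset.sum_sub_distrib]
  refine Eq.trans (Finset.sum_congr rfl fun e _ => ?_) h3
  rw [sub_mul]
  rfl

end Pool.Agent.Results.MP_974d84_co.StrengthCriterion
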